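import Pool.Agent.H11.EL.Targets

/-! # EL, module HA: Sylow subgroup and Hall complement in finite soluble groups -/

set_option autoImplicit false

open scoped commutatorElement
open Pool.Agent.H11.EL

namespace Pool.Agent.H12.EL

/-- a normal nontrivial elementary abelian subgroup -/
private theorem ha_normal (G : Type) [Group G] [Finite G] (hs : Group.IsSolvable G)
    (hn : Nontrivial G) : ∃ (q : ℕ) (N : Subgroup G), q.Prime ∧ N.Normal ∧ N ≠ ⊥ ∧
      IsPGroup q N := by
  classical
  have hex : ∃ n, derivedSeries G n = ⊥ := hs.solvable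
  obtain ⟨n, hn0⟩ : ∃ n, Nat.find hex = n := ⟨_, rfl⟩
  have hbot : derivedSeries G n = ⊥ := hn0 ▸ Nat.find_spec hex
  cases n with
  | zero =>
    rw [derivedSeries_zero] at hbot
    exact absurd hbot top_ne_bot
  | succ n =>
    have hA : derivedSeries G n ≠ ⊥ := Nat.find_min hex (by omega)
    have hAn : (derivedSeries G n).Normal := derivedSeries_normal G n
    have hcomm : ∀ x ∈ derivedSeries G n, ∀ y ∈ derivedSeries G n, x * y = y * x := by
      intro x hx y hy
      have h1 : ⁅x, y⁆ ∈ derivedSeries G (n + 1) := by
        rw [derivedSeries_succ]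
        exact Subgroup.commutator_mem_commutator hx hy
      rw [hbot, Subgroup.mem_bot] at h1
      exact commutatorElement_eq_one_iff_mul_comm.1 h1
    have hc1 : Nat.card (derivedSeries G n) ≠ 1 := by
      intro h
      exact hA (Subgroup.card_eq_one.1 h)
    obtain ⟨q, hq, hqd⟩ := Nat.exists_prime_and_dvd hc1
    have hqf : Fact q.Prime := ⟨hq⟩
    obtain ⟨x, hx⟩ := exists_prime_orderOf_dvd_card' q hqd
    let N : Subgroup G :=
      { carrier := {x | x ∈ derivedSeries G n ∧ x ^ q = 1}
        one_mem' := ⟨one_mem _, one_pow _⟩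
        mul_mem' := by
          rintro a b ⟨ha, ha'⟩ ⟨hb, hb'⟩
          refine ⟨mul_mem ha hb, ?_⟩
          have hc : Commute a b := hcomm a ha b hb
          rw [hc.mul_pow, ha', hb', one_mul]
        inv_mem' := by
          rintro a ⟨ha, ha'⟩
          exact ⟨inv_mem ha, by rw [inv_pow, ha', inv_one]⟩ }
    refine ⟨q, N, hq, ⟨?_⟩, ?_, ?_⟩
    · rintro a ⟨ha, ha'⟩ g
      refine ⟨hAn.conj_mem a ha g, ?_⟩
      rw [conj_pow, ha', mul_one, mul_inv_cancel]
    · intro h
      have h1 : (x : G) ∈ N := by
        refine ⟨x.2, ?_⟩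
        have h2 := pow_orderOf_eq_one x
        rw [hx] at h2
        have h3 := congrArg (fun z : derivedSeries G n => (z : G)) h2
        simpa using h3
      rw [h, Subgroup.mem_bot] at h1
      have h2 : x = 1 := Subtype.ext h1
      rw [h2, orderOf_one] at hx
      exact hq.one_lt.ne hx
    · rintro ⟨a, ha, ha'⟩
      refine ⟨1, ?_⟩
      apply Subtype.ext
      simpa using ha'

private theorem ha_hall (p : ℕ) (hp : p.Prime) : ∀ (n : ℕ) (G : Type) [Group G] [Finite G],
    Group.IsSolvable G → Nat.card G = n →
      ∃ K : Subgroup G, (Nat.card K).Coprime p ∧ ∃ k, K.index = p ^ k := by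
  intro n
  induction n using Nat.strongRecOn with
  | ind n ih =>
    intro G _ _ hs hc
    rcases subsingleton_or_nontrivial G with ht | ht
    · refine ⟨⊤, ?_, 0, ?_⟩
      · have h1 : Nat.card (⊤ : Subgroup G) = 1 := by
          rw [Subgroup.card_top]
          exact Nat.card_of_subsingleton 1
        rw [h1]
        exact Nat.coprime_one_left p
      · simp
    · obtain ⟨q, N, hq, hN, hNb, hNq⟩ := ha_normal G hs ht
      have hqf : Fact q.Prime := ⟨hq⟩
      have hpf : Fact p.Prime := ⟨hp⟩
      have hNc : 1 < Nat.card N := by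
        rcases Nat.lt_or_ge 1 (Nat.card N) with h | h
        · exact h
        · have h1 : Nat.card N = 1 := le_antisymm h Nat.card_pos
          exact absurd (Subgroup.card_eq_one.1 h1) hNb
      have hGN : Nat.card G = Nat.card (G ⧸ N) * Nat.card N :=
        Subgroup.card_eq_card_quotient_mul_card_subgroup N
      have hQ0 : 0 < Nat.card (G ⧸ N) := Nat.card_pos
      have hlt : Nat.card (G ⧸ N) < n := by
        rw [← hc, hGN]
        exact lt_mul_of_one_lt_right hQ0 hNc
      have hsq : Group.IsSolvable (G ⧸ N) :=
        Group.isSolvable_of_surjective (QuotientGroup.mk'_surjective N)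
      obtain ⟨K', hK', k, hk⟩ := ih _ hlt (G ⧸ N) hsq rfl
      let K1 : Subgroup G := K'.comap (QuotientGroup.mk' N)
      have hi1 : K1.index = p ^ k := by
        rw [← hk]
        exact Subgroup.index_comap_of_surjective K' (QuotientGroup.mk'_surjective N)
      have hc1 : Nat.card K1 = Nat.card K' * Nat.card N := by
        have e1 : Nat.card K1 * K1.index = Nat.card G := Subgroup.card_mul_index K1
        have e2 : Nat.card K' * K'.index = Nat.card (G ⧸ N) := Subgroup.card_mul_index K'
        rw [hGN, ← e2, hi1, hk] at e1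
        have hpk : 0 < p ^ k := Nat.pow_pos hp.pos
        refine Nat.eq_of_mul_eq_mul_right hpk ?_
        rw [e1]
        ring
      obtain ⟨j, hj⟩ := IsPGroup.iff_card.1 hNq
      by_cases hqp : q = p
      · subst hqp
        have hNK : N ≤ K1 := by
          intro x hx
          have h1 : QuotientGroup.mk' N x = 1 := (QuotientGroup.eq_one_iff x).2 hx
          change QuotientGroup.mk' N x ∈ K'
          rw [h1]
          exact one_mem _
        have hN'c : Nat.card (N.subgroupOf K1) = Nat.card N :=
          Nat.card_congr (Subgroup.subgroupOfEquivOfLe hNK).toEquiv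
        have hN'i : (N.subgroupOf K1).index = Nat.card K' := by
          have e1 : Nat.card (N.subgroupOf K1) * (N.subgroupOf K1).index = Nat.card K1 :=
            Subgroup.card_mul_index _
          rw [hN'c, hc1, mul_comm] at e1
          exact Nat.eq_of_mul_eq_mul_right (by omega) e1
        have hNn : (N.subgroupOf K1).Normal := inferInstance
        obtain ⟨K2, hK2⟩ := Subgroup.exists_right_complement'_of_coprime
          (N := N.subgroupOf K1) (by
            rw [hN'i, hN'c, hj]
            exact (Nat.Coprime.pow_left j hK'.symm))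
        have hcK2 : Nat.card K2 = Nat.card K' := by
          have e1 := hK2.card_mul_card
          rw [hN'c, hc1, mul_comm] at e1
          exact Nat.eq_of_mul_eq_mul_right (by omega) e1
        have hcm : Nat.card (K2.map K1.subtype) = Nat.card K' := by
          rw [← hcK2]
          exact (Nat.card_congr (K2.equivMapOfInjective K1.subtype
            (Subgroup.subtype_injective K1)).toEquiv).symm
        refine ⟨K2.map K1.subtype, ?_, j + k, ?_⟩
        · rw [hcm]
          exact hK'
        · have e1 : Nat.card (K2.map K1.subtype) * (K2.map K1.subtype).index = Nat.card G :=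
            Subgroup.card_mul_index _
          have e2 : Nat.card K' * K'.index = Nat.card (G ⧸ N) := Subgroup.card_mul_index K'
          rw [hcm, hGN, ← e2, hk, hj] at e1
          have h0 : 0 < Nat.card K' := Nat.card_pos
          refine Nat.eq_of_mul_eq_mul_left h0 ?_
          rw [e1, pow_add]
          ring
      · refine ⟨K1, ?_, k, hi1⟩
        rw [hc1, hj]
        refine Nat.Coprime.mul_left hK' ?_
        exact Nat.Coprime.pow_left j ((Nat.coprime_primes hq hp).2 hqp)

theorem pf_ha : T_HA := by
  intro G _ _ hs p hp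
  have hpf : Fact p.Prime := ⟨hp⟩
  obtain ⟨K, hK, k, hk⟩ := ha_hall p hp _ G hs rfl
  let P : Sylow p G := default
  have hP := P.card_eq_multiplicity
  have hG : Nat.card K * p ^ k = Nat.card G := by
    rw [← hk]
    exact Subgroup.card_mul_index K
  have hK0 : Nat.card K ≠ 0 := Nat.card_pos.ne'
  have hf : (Nat.card G).factorization p = k := by
    rw [← hG, Nat.factorization_mul hK0 (Nat.pow_pos hp.pos).ne', Finsupp.add_apply,
      hp.factorization_pow, Finsupp.single_eq_same,
      Nat.factorization_eq_zero_of_not_dvd, zero_add]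
    intro hd
    have h1 := Nat.dvd_gcd hd (dvd_refl p)
    rw [hK] at h1
    exact hp.one_lt.ne' (Nat.dvd_one.1 h1)
  rw [hf] at hP
  have hcop : (Nat.card (P : Subgroup G)).Coprime (Nat.card K) := by
    rw [hP]
    exact Nat.Coprime.pow_left k hK.symm
  have hcomp : Subgroup.IsComplement' (P : Subgroup G) K := by
    refine Subgroup.isComplement'_of_coprime ?_ hcop
    rw [hP, ← hG, mul_comm]
  refine ⟨P, K, P.isPGroup', hK, ?_⟩
  intro g
  obtain ⟨⟨a, b⟩, hab, -⟩ := hcomp.existsUnique g
  exact ⟨a, a.2, b, b.2, hab.symm⟩

end Pool.Agent.H12.EL
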