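import Pool.Agent.H11.EL.Targets

/-! # EL, module MG: merging two factors -/

set_option autoImplicit false

open scoped commutatorElement
open Pool.Agent.H11.EL

namespace Pool.Agent.H12.EL

private theorem lift_map {r : ℕ} (w : FreeGroup (Fin r)) {G H : Type} [Group G] [Group H]
    (φ : G →* H) (f : Fin r → G) :
    φ (FreeGroup.lift f w) = FreeGroup.lift (fun i => φ (f i)) w := by
  have : φ.comp (FreeGroup.lift f) = FreeGroup.lift (fun i => φ (f i)) := by
    ext i; simp
  rw [← this]; rfl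

private theorem pi_pw (hNF : T_NF) {r : ℕ} (w : FreeGroup (Fin r)) (m : ℕ) (G : ℕ → Type)
    [∀ M, Group (G M)] (g : ∀ M, G M) (h : ∀ M, PW w m (g M)) :
    ∃ k, PW w k (g : ∀ M, G M) := by
  choose f f' hf using fun M => hNF r w m (G M) (g M) (h M)
  have key : g = (List.ofFn fun i : Fin m => FreeGroup.lift (fun j M => f M i j) w *
      (FreeGroup.lift (fun j M => f' M i j) w)⁻¹).prod := by
    funext M
    have h1 := map_list_prod (Pi.evalMonoidHom G M) (List.ofFn fun i : Fin m =>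
      FreeGroup.lift (fun j M => f M i j) w * (FreeGroup.lift (fun j M => f' M i j) w)⁻¹)
    have h2 : (List.ofFn fun i : Fin m => FreeGroup.lift (fun j M => f M i j) w *
      (FreeGroup.lift (fun j M => f' M i j) w)⁻¹).prod M = Pi.evalMonoidHom G M
        (List.ofFn fun i : Fin m => FreeGroup.lift (fun j M => f M i j) w *
          (FreeGroup.lift (fun j M => f' M i j) w)⁻¹).prod := rfl
    rw [h2, h1, List.map_ofFn, hf M]
    congr 2
    funext i
    rw [Function.comp_apply, map_mul, map_inv, lift_map, lift_map]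
    rfl
  have h9 := PW.list (w := w) (k := 1 + 1) (List.ofFn fun i : Fin m =>
      FreeGroup.lift (fun j M => f M i j) w * (FreeGroup.lift (fun j M => f' M i j) w)⁻¹)
      (by
        intro z hz
        rw [List.mem_ofFn] at hz
        obtain ⟨i, rfl⟩ := hz
        exact (PW.val _).mul (PW.val _).inv)
  rw [← key] at h9
  exact ⟨_, h9⟩

/-- the verbal subgroup -/
private def VV {r : ℕ} (w : FreeGroup (Fin r)) (G : Type) [Group G] : Subgroup G where
  carrier := {g | ∃ k, PW w k g}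
  one_mem' := ⟨0, PW.one 0⟩
  mul_mem' := by
    rintro a b ⟨k, hk⟩ ⟨l, hl⟩
    exact ⟨k + l, hk.mul hl⟩
  inv_mem' := by
    rintro a ⟨k, hk⟩
    exact ⟨k, hk.inv⟩

private theorem VV_normal {r : ℕ} (w : FreeGroup (Fin r)) (G : Type) [Group G] :
    (VV w G).Normal := by
  constructor
  rintro a ⟨k, hk⟩ g
  exact ⟨k, hk.map (MulAut.conj g).toMonoidHom⟩

theorem pf_mg : T_IT → T_NF → T_MG := by
  intro hIT hNF r w hw mA mB
  by_contra hcon
  push Not at hcon
  choose G grp A B hG hA hB x y hxy using hcon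
  let _ : ∀ M, Group (G M) := grp
  have hN : (VV w (∀ M, G M)).Normal := VV_normal w _
  let A' : Subgroup (∀ M, G M) := Subgroup.pi Set.univ A
  let B' : Subgroup (∀ M, G M) := Subgroup.pi Set.univ B
  have hA' : ∀ a ∈ A', ∀ M, a M ∈ A M := fun a ha M => ha M (Set.mem_univ M)
  have hB' : ∀ a ∈ B', ∀ M, a M ∈ B M := fun a ha M => ha M (Set.mem_univ M)
  let mk := QuotientGroup.mk' (VV w (∀ M, G M))
  have hmk : ∀ a b : ∀ M, G M, ⁅a, b⁆ ∈ VV w (∀ M, G M) ↔ mk a * mk b = mk b * mk a := by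
    intro a b
    rw [← QuotientGroup.eq_one_iff]
    change mk ⁅a, b⁆ = 1 ↔ _
    rw [map_commutatorElement, commutatorElement_eq_one_iff_mul_comm]
  have hAab : ∀ x ∈ A'.map mk, ∀ y ∈ A'.map mk, x * y = y * x := by
    rintro _ ⟨a, ha, rfl⟩ _ ⟨b, hb, rfl⟩
    rw [← hmk]
    exact pi_pw hNF w mA G _ fun M => hA M _ (hA' a ha M) _ (hA' b hb M)
  have hBab : ∀ x ∈ B'.map mk, ∀ y ∈ B'.map mk, x * y = y * x := by
    rintro _ ⟨a, ha, rfl⟩ _ ⟨b, hb, rfl⟩
    rw [← hmk]
    exact pi_pw hNF w mB G _ fun M => hB M _ (hB' a ha M) _ (hB' b hb M)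
  have hprod : ∀ g : (∀ M, G M) ⧸ VV w (∀ M, G M), ∃ a ∈ A'.map mk, ∃ b ∈ B'.map mk,
      g = a * b := by
    intro g
    obtain ⟨g, rfl⟩ := QuotientGroup.mk'_surjective _ g
    choose a ha b hb hab using fun M => hG M (g M)
    refine ⟨mk a, ⟨a, fun M _ => ha M, rfl⟩, mk b, ⟨b, fun M _ => hb M, rfl⟩, ?_⟩
    rw [← map_mul]
    congr 1
    funext M
    exact hab M
  have hder := hIT _ _ _ hAab hBab hprod
  have hlaw : ∀ f : Fin r → (∀ M, G M) ⧸ VV w (∀ M, G M), FreeGroup.lift f w = 1 := by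
    intro f
    choose F hF using fun i => QuotientGroup.mk'_surjective (VV w (∀ M, G M)) (f i)
    have h1 : f = fun i => mk (F i) := by
      funext i
      exact (hF i).symm
    rw [h1, ← lift_map]
    exact (QuotientGroup.eq_one_iff _).2 ⟨1, PW.val F⟩
  have hab := hw _ hder hlaw (mk x) (mk y)
  rw [← hmk] at hab
  obtain ⟨k, hk⟩ := hab
  exact hxy k (hk.map (Pi.evalMonoidHom G k))

end Pool.Agent.H12.EL
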